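import Pool.Agent.U908.LP.Sharp

/-!
# The sign of the Gauss–Bonnet–Chern integrand: causal second fundamental forms of any codimension,
curvature operators of both kinds, and two skew forms

`GenT S`: `S = ∑ T_i - P - skewCurv A - skewCurv A'`, where

* `P` is a curvature tensor with nonnegative curvature operator,
* `A`, `A'` are skew forms, with curvature tensors
  `skewCurv A = 2 A(x,y) A(z,w) + A(x,z) A(y,w) - A(x,w) A(y,z)`,
* each `T_i` is a `Summand`: either of causal type, that is
  `T(x,y,z,w) = ∑ (β_k(x,z) β_k(y,w) - β_k(x,w) β_k(y,z)) - (b(x,z) b(y,w) - b(x,w) b(y,z))` for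
  symmetric bilinear forms `b, β_1, …, β_N` such that `(b(x,x), β_1(x,x), …, β_N(x,x))` lies in the
  closed future light cone of the Lorentzian space `ℝ ⊕ ℝᴺ` for all `x` (`CausalT N T`, no
  restriction on `N`), or a curvature tensor whose quadratic form of the curvature operator of the
  second kind, `∑ T(e_a, e_c, e_d, e_b) h_ab h_cd`, is nonpositive on the symmetric `h` orthogonal to
  some matrix `g` (`SecondNonpos`; for `g` the identity: nonpositive curvature operator of the
  second kind).

`GenBlocks δ R`: `R = ∑ S_i - ∑ (x_k ∧ y_k)² - δ · (unit tensor)` for an orthogonal decomposition of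
the space into any number of blocks of any dimensions, tensors `S_i` of type `GenT` on the blocks,
and each `x_k` and each `y_k` in one of the blocks.

(1) In every even dimension `(-1)^m` times the Gauss–Bonnet–Chern integrand of `R` is at least its
value for constant curvature `-δ`. (2), (3) Integrated forms.
(4) Submanifolds of any codimension: if the curvature tensor of the ambient space satisfies
`TwoSkew c` (for instance curvature operator at most `-c`, or complex hyperbolic space with sectional
curvatures between `-4c` and `-c`) and `|II(x,x)|² ≤ (c - δ) |x|⁴`, then the submanifold is in the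
class. (5) The bound on `II` is optimal in every dimension.

The proof is in `Pool/Agent/U908/LC/` and `Pool/Agent/U908/LP/`. Its core: the heat flow
`exp(-t □)` of the Lorentzian wave operator preserves the polynomials without zeros in the tube over
the future light cone, in every dimension (`stab_flow`); it is applied to Moore determinants of
pencils of quaternionic hermitian matrices (as Pfaffians, `LF_ne_zero`).
-/

set_option autoImplicit false

namespace Pool.Agent.Results.MP_5a30bb_gt.CausalPlusOperator

open Pool.Agent.W666.GB Pool.Agent.W669.HD Pool.Agent.Y195.HF Pool.Agent.U908.LC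
open Pool.Agent.U908.LP
open Pool.Agent.N565.LZ (SecForm gaussT)

/-- The pointwise bound. -/
def Pointwise : Prop :=
  ∀ (m : ℕ) (V : Type) [NormedAddCommGroup V] [InnerProductSpace ℝ V]
    (e : OrthonormalBasis (Fin m × Bool) ℝ V) (R : V → V → V → V → ℝ) (δ : ℝ),
    0 ≤ δ → GenBlocks δ R → roundGB m δ ≤ (-1) ^ m * gbc e R

/-- The sign of the integral. -/
def IntegralSign : Prop :=
  ∀ (m : ℕ) (M : Type) [MeasurableSpace M] (μ : MeasureTheory.Measure M) (K : CurvField m M),
    (∀ p, GenBlocks 0 (K.R p)) → 0 ≤ (-1) ^ m * ∫ p, K.gb p ∂μ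

/-- The lower bound for the integral. -/
def IntegralBound : Prop :=
  ∀ (m : ℕ) (M : Type) [MeasurableSpace M] (μ : MeasureTheory.Measure M)
    [MeasureTheory.IsFiniteMeasure μ] (K : CurvField m M) (δ : ℝ),
    MeasureTheory.Integrable K.gb μ → 0 ≤ δ → (∀ p, GenBlocks δ (K.R p)) →
      roundGB m δ * μ.real Set.univ ≤ (-1) ^ m * ∫ p, K.gb p ∂μ

/-- Submanifolds of any codimension: `Z` is the tangent space of the ambient space, `E` that of the
submanifold, `W` the normal space. -/
def Submanifolds : Prop :=
  ∀ (Z W : Type) [NormedAddCommGroup Z] [InnerProductSpace ℝ Z]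
    [NormedAddCommGroup W] [InnerProductSpace ℝ W] [FiniteDimensional ℝ W]
    (Ra : Z → Z → Z → Z → ℝ) (E : Submodule ℝ Z) [FiniteDimensional ℝ E] (β : E → E → W)
    (c δ : ℝ), AlgCurv Ra → TwoSkew c Ra → SecForm β → δ ≤ c →
    (∀ x, ‖β x x‖ ^ 2 ≤ (c - δ) * ‖x‖ ^ 4) → GenBlocks δ (subR Ra E β)

/-- The bound on the second fundamental form is optimal, already for hypersurfaces of spaces of
constant curvature `-c`. -/
def Optimal : Prop :=
  ∀ (m : ℕ) (V : Type) [NormedAddCommGroup V] [InnerProductSpace ℝ V]
    (e : OrthonormalBasis (Fin m × Bool) ℝ V) (c c' : ℝ), 1 ≤ m → 0 < c → c < c' →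
    ∃ β : V → V → ℝ, SecForm β ∧ (∀ x, ‖β x x‖ ^ 2 ≤ c' * ‖x‖ ^ 4) ∧
      (-1) ^ m * gbc e (gaussT c β) < 0

theorem result : Pointwise ∧ IntegralSign ∧ IntegralBound ∧ Submanifolds ∧ Optimal :=
  ⟨fun _ _ _ _ e _ _ hδ h => gen_bound e hδ h,
    fun _ _ _ μ K h => field_gen μ K h,
    fun _ _ _ μ _ K _ hi hδ h => field_genδ μ K hi hδ h,
    fun _ _ _ _ _ _ _ _ E _ _ _ _ hRa hT hs hc hβ => sub_gen hRa E hs hc hT hβ,
    fun _ _ _ _ e _ _ hm hc hcc => sharp_bound e hm hc hcc⟩

end Pool.Agent.Results.MP_5a30bb_gt.CausalPlusOperator
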