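import Pool.Agent.U474.KN.Fin

/-!
# The Hopf sign for curvature tensors of codimension two, normal planes of any signature

`gauss2 a b c A B` is the curvature tensor which the Gauss equation gives for a second fundamental
form `(A, B)` with values in a plane whose inner product has the matrix `(a b; b c)`: Riemannian
submanifolds of codimension two of flat pseudo-Riemannian spaces, for normal planes of any signature
(`CodimTwo`). Hypersurfaces (of any causal character) of pseudo-Riemannian spaces of constant
curvature and conformally flat metrics are special cases. `ObliquelyPure`: the curvature tensor is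
diagonal in a basis which need not be orthonormal.

(1) `Weinstein`: if the matrix is not positive definite, then nonpositive sectional curvatures imply
a nonpositive curvature operator. (For the negative definite planes this is Weinstein's theorem of
1970 with the signs changed; for indefinite planes the two forms need not be semidefinite, nor have
a common orthogonal basis.)
(2) `Diagonal`: in dimension at least four, sectional curvatures at most `-δ < 0` imply that the
tensor is obliquely pure.
(3) `Pointwise`: for every `R` of the class `Good δ`, `(-1)^m` times the Gauss–Bonnet–Chern integrand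
is at least its value for constant curvature `-δ`. `Good δ` contains the tensors of codimension two
(no exception of signature) and the obliquely pure tensors with sectional curvatures at most `-δ`, and
all sums of a tensor of the class `TwoSkew δ` (for instance with curvature operator at most `-δ`)
and any number of tensors of these kinds (normal planes not positive definite) with nonpositive
sectional curvatures.
(4), (5) Integrated forms.
-/

set_option autoImplicit false

namespace Pool.Agent.Results.MP_5a30bb_gt.CodimensionTwo

open Pool.Agent.W666.GB Pool.Agent.W669.HD Pool.Agent.Y195.HF Pool.Agent.U474.KN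

/-- From sectional curvatures to the curvature operator. -/
def Weinstein : Prop :=
  ∀ (V : Type) [NormedAddCommGroup V] [InnerProductSpace ℝ V] (A B : V → V → ℝ) (a b c : ℝ),
    SymForm A → SymForm B → ¬ (0 < a ∧ b ^ 2 < a * c) → SecLe (gauss2 a b c A B) 0 →
      OpNonneg (negT (gauss2 a b c A B))

/-- Diagonalisation in an oblique basis. -/
def Diagonal : Prop :=
  ∀ (V : Type) [NormedAddCommGroup V] [InnerProductSpace ℝ V] [FiniteDimensional ℝ V]
    (R : V → V → V → V → ℝ) (δ : ℝ), 4 ≤ Module.finrank ℝ V → 0 < δ → CodimTwo R → SecLe R δ →
      ObliquelyPure R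

/-- The pointwise bound. -/
def Pointwise : Prop :=
  ∀ (m : ℕ) (V : Type) [NormedAddCommGroup V] [InnerProductSpace ℝ V]
    (e : OrthonormalBasis (Fin m × Bool) ℝ V) (R : V → V → V → V → ℝ) (δ : ℝ),
    0 ≤ δ → Good δ R → roundGB m δ ≤ (-1) ^ m * gbc e R

/-- The sign of the integral. -/
def IntegralSign : Prop :=
  ∀ (m : ℕ) (M : Type) [MeasurableSpace M] (μ : MeasureTheory.Measure M) (K : CurvField m M),
    (∀ p, Good 0 (K.R p)) → 0 ≤ (-1) ^ m * ∫ p, K.gb p ∂μ

/-- The lower bound for the integral. -/
def IntegralBound : Prop :=
  ∀ (m : ℕ) (M : Type) [MeasurableSpace M] (μ : MeasureTheory.Measure M)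
    [MeasureTheory.IsFiniteMeasure μ] (K : CurvField m M) (δ : ℝ),
    MeasureTheory.Integrable K.gb μ → 0 ≤ δ → (∀ p, Good δ (K.R p)) →
      roundGB m δ * μ.real Set.univ ≤ (-1) ^ m * ∫ p, K.gb p ∂μ

theorem result : Weinstein ∧ Diagonal ∧ Pointwise ∧ IntegralSign ∧ IntegralBound :=
  ⟨fun _ _ _ _ _ _ _ _ hA hB hq h => weinstein hA hB hq h,
    fun _ _ _ _ _ _ hn hδ hR h => diagonal hn hδ hR h,
    fun _ _ _ _ e _ _ hδ h => good_bound e hδ h,
    fun _ _ _ μ K h => field_good μ K h,
    fun _ _ _ μ _ K _ hi hδ h => field_good' μ K hi hδ h⟩

end Pool.Agent.Results.MP_5a30bb_gt.CodimensionTwo
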