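import Pool.Agent.U661.RD.Bridge

/-!
# The Hopf sign for Moore products, skew forms and second fundamental forms reversed by isometries,
with the scalar curvature and the case of equality

`skewCurv A` is the algebraic curvature tensor `2 A(x,y) A(z,w) + A(x,z) A(y,w) - A(x,w) A(y,z)` of
a skew form `A`; its sectional curvatures are `3 A(x,y)²`. For a quaternionic hermitian form
`T = S + i B₁ + j B₂ + k B₃` on `V ⊗ ℍ` (`S` symmetric, `B₁, B₂, B₃` skew) `EH S B₁ B₂ B₃` is the
curvature tensor `3/2 (S ∧ S) - skewCurv B₁ - skewCurv B₂ - skewCurv B₃`, whose sectional curvature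
on `x, y` is three times the Moore determinant of `T` on `x, y`, and `moore T T'` is its
polarization; for symmetric forms it is three times the Kulkarni–Nomizu product. `plus δ D` is
`δ unitT + D` and `full D A h = D + ∑ skewCurv (A a) - ∑ (h b ∧ h b)` with
`(h ∧ h)(x,y,z,w) = h(x,z) h(y,w) - h(x,w) h(y,z)`. By the Gauss equation `-full D A h` is the
curvature tensor of a submanifold, of any codimension, with the components `h b` of the second
fundamental form, of a space whose curvature tensor is `-(D + ∑ skewCurv (A a))` on the tangent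
space of the submanifold.

`RevM A h D`: for every real combination `H` of the `h b` and any three real combinations `P₁`,
`P₂`, `P₃` of the `A a` there is a linear isometry `g` of the tangent space (which may depend on
them) with `H(gx,gy) = -H(x,y)`, and either `g` reverses `P₁`, `P₂`, `P₃` in the same way and `D` is
a sum of Moore products of positive semidefinite quaternionic hermitian forms fixed by `g`
(`MCone g D`), or `g` fixes `P₁`, `P₂`, `P₃`, which are linearly dependent, and `D` is a sum of
Kulkarni–Nomizu products of positive semidefinite symmetric forms fixed by `g` (`SCone g D`).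

With `R = -full (plus δ D) A h`, `δ ≥ 0`, for any number of skew forms `A a` and symmetric forms
`h b` with `RevM A h D`, in every even dimension `2 m`:

(1) `(-1)^m` times the Gauss–Bonnet–Chern integrand of `R` is at least the one of
`-(δ unitT + D)`, which is at least its value for constant curvature `-δ`.
(2) For `m ≥ 1` it is at least `tangGB m δ (scal R)`, which is the value at `κ` of the tangent of
`x ↦ (2 m)! / ((4 π)^m m!) x^m` at `δ`, where `-κ` is the mean of the sectional curvatures of `R`,
and this is at least the value for constant curvature `-δ`.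
(3) Rigidity: for `m ≥ 1`, `δ > 0` the value for constant curvature `-δ` is attained only if all
`A a`, all `h b` and `D` vanish.
(4) The integrated forms of the sign, of the bounds and of the rigidity.
(5) Submanifolds of products of real, complex and quaternionic hyperbolic spaces: `S i` and `w a`
are the restrictions of the metrics and of the Kähler forms of the factors.

The hypothesis holds in particular (`Pool.Agent.U661.RZ.Ex`, `Fin`, `Cor`) for the quaternionic cone
`QCone`, for one isometry which reverses all the `A a` and `h b` and fixes the forms of `D`, for at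
most two skew forms fixed by isometries which reverse the combinations of the `h b`, and for skew
forms in the span of at least four pairwise anticommuting orthogonal complex structures.

The proof: the Gaussian mean reduces the mixed terms to even powers of one quaternionic hermitian
matrix `H + i P₁ + j P₂ + k P₃`, mixed with positive definite quaternionic hermitian matrices. The
mixed characteristic polynomial has only real roots, and it is even because of the isometry
(in the second case of `RevM` combined with the conjugation by a unit quaternion orthogonal to the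
three forms); hence its coefficients alternate in sign. The term of first order is the scalar
curvature, which is the sum of the scalar curvature of `D`, of `3 |A a|²` and of `|h b|²`, because
the forms `h b` have trace zero.
-/

set_option autoImplicit false

namespace Pool.Agent.Results.MP_5a30bb_gt.IsometriesAndMooreProducts

open Pool.Agent.W666.GB Pool.Agent.W669.HD Pool.Agent.Y195.HF Pool.Agent.R770.NS
open Pool.Agent.R770.QC Pool.Agent.U661.RD

/-- The comparison. -/
def Pointwise : Prop :=
  ∀ (m : ℕ) (V : Type) [NormedAddCommGroup V] [InnerProductSpace ℝ V]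
    (e : OrthonormalBasis (Fin m × Bool) ℝ V) (n q : ℕ) (A : Fin n → V → V → ℝ)
    (h : Fin q → V → V → ℝ) (D : V → V → V → V → ℝ) (δ : ℝ), 0 ≤ δ →
    (∀ a, SkewForm (A a)) → (∀ b, SymForm (h b)) → RevM A h D →
    roundGB m δ ≤ (-1) ^ m * gbc e (negT (plus δ D)) ∧
      (-1) ^ m * gbc e (negT (plus δ D)) ≤ (-1) ^ m * gbc e (negT (full (plus δ D) A h))

/-- The bound by the scalar curvature and the case of equality. -/
def Rigid : Prop :=
  ∀ (m : ℕ) (V : Type) [NormedAddCommGroup V] [InnerProductSpace ℝ V]
    (e : OrthonormalBasis (Fin m × Bool) ℝ V) (n q : ℕ) (A : Fin n → V → V → ℝ)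
    (h : Fin q → V → V → ℝ) (D : V → V → V → V → ℝ) (δ : ℝ), 0 < m → 0 ≤ δ →
    (∀ a, SkewForm (A a)) → (∀ b, SymForm (h b)) → RevM A h D →
    roundGB m δ ≤ tangGB m δ (scal e (negT (full (plus δ D) A h))) ∧
      tangGB m δ (scal e (negT (full (plus δ D) A h))) ≤
        (-1) ^ m * gbc e (negT (full (plus δ D) A h)) ∧
      (0 < δ → (-1) ^ m * gbc e (negT (full (plus δ D) A h)) = roundGB m δ →
        (∀ a x y, A a x y = 0) ∧ (∀ b x y, h b x y = 0) ∧ ∀ x y z w, D x y z w = 0)

/-- The integrals. -/
def Integral : Prop :=
  ∀ (m : ℕ) (M : Type) [MeasurableSpace M] (μ : MeasureTheory.Measure M) (K : CurvField m M)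
    (δ : M → ℝ), 0 < m → (∀ p, 0 ≤ δ p ∧ NegRevM (δ p) (K.R p)) →
    0 ≤ (-1) ^ m * ∫ p, K.gb p ∂μ ∧
      (MeasureTheory.Integrable K.gb μ →
        ∫ p, roundGB m (δ p) ∂μ ≤ (-1) ^ m * ∫ p, K.gb p ∂μ ∧
        ∫ p, tangGB m (δ p) (scal (K.e p) (K.R p)) ∂μ ≤ (-1) ^ m * ∫ p, K.gb p ∂μ ∧
        ((-1) ^ m * ∫ p, K.gb p ∂μ = ∫ p, roundGB m (δ p) ∂μ →
          ∀ᵐ p ∂μ, 0 < δ p → ∀ x y z w, K.R p x y z w = -(δ p * unitT x y z w)))

/-- Submanifolds of products of real, complex and quaternionic hyperbolic spaces. -/
def Ambient : Prop :=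
  ∀ (V : Type) [NormedAddCommGroup V] [InnerProductSpace ℝ V] (n q r : ℕ) (δ : ℝ)
    (k : Fin r → ℝ) (S : Fin r → V → V → ℝ) (c : Fin n → ℝ) (w : Fin n → V → V → ℝ)
    (h : Fin q → V → V → ℝ), (∀ i, 0 ≤ k i) → (∀ i, Psd (S i)) → (∀ a, 0 ≤ c a) →
    (∀ a, SkewForm (w a)) → (∀ b, SymForm (h b)) →
    (∀ d : Fin q → ℝ, ∃ g : V →ₗᵢ[ℝ] V, (∀ i, Pres g (S i)) ∧ Revs g (comb d h) ∧
      ((∀ a, Revs g (w a)) ∨ n ≤ 2 ∧ ∀ a, Pres g (w a))) →
    NegRevM δ (ambR δ k S c w h)

theorem result : Pointwise ∧ Rigid ∧ Integral ∧ Ambient :=
  ⟨fun _ _ _ _ e _ _ _ _ _ _ hδ hA hh h => main e hδ hA hh h,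
    fun _ _ _ _ e _ _ _ _ _ _ hm hδ hA hh h => rigid e hm hδ hA hh h,
    fun _ _ _ μ K δ hm h => integrals μ K δ hm h,
    fun _ _ _ _ _ _ _ _ _ _ _ _ hk hS hc hw hh H => ambient hk hS hc hw hh H⟩

end Pool.Agent.Results.MP_5a30bb_gt.IsometriesAndMooreProducts
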