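import Pool.Agent.U486.HF.FiveEx
import Pool.Agent.U486.HF.Comm

/-!
# The sign of the Gauss–Bonnet–Chern integrand for any number of skew forms in the span of four
forms of rank two, and for commuting families of skew forms in dimension eight

`biv x y` is the skew form `x ∧ y` (of rank at most two), `bivSum x y c` is the skew form
`∑ c j • (x j ∧ y j)`, and `skewCurv A` is the algebraic curvature tensor
`2 A(x,y) A(z,w) + A(x,z) A(y,w) - A(x,w) A(y,z)` of a skew form `A`.

`SpanPlus n δ R` says: `-R = P + ∑ skewCurv (A k)`, a sum with any number of terms, where the skew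
forms `A k` lie in the span of `n` skew forms `x j ∧ y j` and the curvature operator of `P` is at
least `δ`.

(1) In every even dimension `2 m`, if `R` satisfies `SpanPlus 4 δ`, then `(-1)^m` times the
Gauss–Bonnet–Chern integrand of `R` is at least its value for constant curvature `-δ`.
(2) The integrated forms, for fields of curvature tensors.
(3) In dimension at most eight, `SpanPlus 4 δ R` holds if `-R = P + ∑ skewCurv (A k)` with
the curvature operator of `P` at least `δ` and any number of skew forms `A k` whose endomorphisms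
`T k` commute with each other.
(4) Four is optimal: in dimension six there are three skew forms in the span of five skew forms of
rank two for which (1) fails, even for `P = 0`.
-/

set_option autoImplicit false

namespace Pool.Agent.Results.MP_5a30bb_gt.SpanOfFourBivectors

open Pool.Agent.W666.GB Pool.Agent.W669.HD Pool.Agent.Y195.HF Pool.Agent.U486.HF

theorem result :
    (∀ (m : ℕ) (V : Type) [NormedAddCommGroup V] [InnerProductSpace ℝ V]
      (e : OrthonormalBasis (Fin m × Bool) ℝ V) (R : V → V → V → V → ℝ) (δ : ℝ),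
      AlgCurv R → 0 ≤ δ → SpanPlus 4 δ R → roundGB m δ ≤ (-1) ^ m * gbc e R) ∧
    (∀ (m : ℕ) (M : Type) [MeasurableSpace M] (μ : MeasureTheory.Measure M) (K : CurvField m M),
      (∀ p, SpanPlus 4 0 (K.R p)) → 0 ≤ (-1) ^ m * ∫ p, K.gb p ∂μ) ∧
    (∀ (m : ℕ) (M : Type) [MeasurableSpace M] (μ : MeasureTheory.Measure M)
      [MeasureTheory.IsFiniteMeasure μ] (K : CurvField m M) (δ : ℝ),
      MeasureTheory.Integrable K.gb μ → 0 ≤ δ → (∀ p, SpanPlus 4 δ (K.R p)) →
        roundGB m δ * μ.real Set.univ ≤ (-1) ^ m * ∫ p, K.gb p ∂μ) ∧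
    (∀ (m : ℕ) (V : Type) [NormedAddCommGroup V] [InnerProductSpace ℝ V]
      (_ : OrthonormalBasis (Fin m × Bool) ℝ V) (R : V → V → V → V → ℝ) (δ : ℝ)
      (K : ℕ) (T : Fin K → V →ₗ[ℝ] V), m ≤ 4 →
      (∀ k x y, inner ℝ (T k x) y = - inner ℝ x (T k y)) →
      (∀ k l x, T k (T l x) = T l (T k x)) →
      OpNonneg (negT (addT (addT R fun u v w z => δ * unitT u v w z)
        fun u v w z => ∑ k, skewCurv (fun s t => inner ℝ (T k s) t) u v w z)) →
        SpanPlus 4 δ R) ∧
    (∃ (x y : Fin 5 → E6) (c : Fin 3 → Fin 5 → ℝ),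
      ∀ e : OrthonormalBasis (Fin 3 × Bool) ℝ E6,
        (-1) ^ 3 * gbc e (fun u v w z => - ∑ k, skewCurv (bivSum x y (c k)) u v w z) < 0) :=
  ⟨fun _ _ _ _ e _ _ hR hδ h => span_four e hR hδ h,
    fun _ _ _ μ K h => field_four μ K h,
    fun _ _ _ μ _ K _ hi hδ h => field_four' μ K hi hδ h,
    fun _ _ _ _ e _ _ _ _ hm hT hC hn => comm_four hm e hT hC hn,
    five_fail⟩

end Pool.Agent.Results.MP_5a30bb_gt.SpanOfFourBivectors
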